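import Pool.Agent.H96.JCT.Stmts

/-!
Row PER of board jct.
-/

set_option autoImplicit false

namespace Pool.JCT

open Complex Set

theorem per_thm (hA : ADD_S) (hR : REP_S) : PER_S := by
  intro g p m hg hper hne
  have hpi : 0 < 2 * Real.pi := by positivity
  generalize 2 * Real.pi = T at hper hpi ⊢
  obtain ⟨h0, -, hadd, -⟩ := hA g p hg
  have hoff : ∀ a b, Off g a b p := fun a b t _ => hne t
  have hP : Function.Periodic g T := hper
  have hshift : ∀ k : ℤ, inc g (k * T) ((k + 1) * T) p = inc g 0 T p := by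
    intro k
    have hle : (k : ℝ) * T ≤ (k + 1) * T := by nlinarith
    refine hR g g (fun t => t - k * T) (k * T) ((k + 1) * T) 0 T p hg hg ?_ ?_ ?_ ?_ ?_ (hoff 0 T)
    · exact (continuous_id.sub continuous_const).continuousOn
    · intro t ht
      rw [uIcc_of_le hle] at ht
      rw [uIcc_of_le hpi.le]
      constructor
      · linarith [ht.1]
      · have := ht.2
        have e : ((k : ℝ) + 1) * T = k * T + T := by ring
        linarith
    · ring
    · ring
    · intro t _
      exact (hP.sub_int_mul_eq k).symm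
  have hkey : ∀ k : ℤ, inc g 0 (((k + 1 : ℤ) : ℝ) * T) p = inc g 0 ((k : ℝ) * T) p + inc g 0 T p := by
    intro k
    rw [← hshift k]
    push_cast
    exact (hadd 0 (k * T) ((k + 1) * T) (hoff _ _) (hoff _ _)).symm
  induction m using Int.induction_on with
  | zero =>
    rw [Int.cast_zero, Int.cast_zero, zero_mul, zero_mul]
    exact h0 0 (hne 0)
  | succ n ih =>
    rw [hkey, ih]
    push_cast
    ring
  | pred n ih =>
    have h1 := hkey (-(n : ℤ) - 1)
    have e : (-(n : ℤ) - 1 + 1) = -(n : ℤ) := by ring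
    rw [e, ih] at h1
    have h2 : inc g 0 (((-(n : ℤ) - 1 : ℤ) : ℝ) * T) p =
        ((-(n : ℤ) : ℤ) : ℂ) * inc g 0 T p - inc g 0 T p := by
      rw [h1]; ring
    rw [h2]
    push_cast
    ring

end Pool.JCT
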